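import Pool.Agent.H47.B1.M07

/-!
The Good-Churchhouse conjecture (variance and Gaussian law) holds almost surely, for all window
lengths simultaneously, for Wintner's random model of the Möbius function.
-/

set_option autoImplicit false

namespace Pool.Agent.Results.MP_0575cc_nt.GaussianLaw

open MeasureTheory ProbabilityTheory Filter

/-- `M f x H` is the sum of `f n` over the integers `n ≥ 0` with `|n - x| < H / 2`
(written exactly as in the frozen statement S15903, with `f` in place of the Möbius function). -/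
noncomputable def M (f : ℕ → ℝ) (x H : ℝ) : ℝ :=
  ∑ n ∈ (Finset.range (⌈x + H⌉₊ + 1)).filter (fun n : ℕ => |(n : ℝ) - x| < H / 2), f n

/-- The variance `V(X;H) = (1/X) ∫_X^{2X} M(x;H)^2 dx`. -/
noncomputable def V (f : ℕ → ℝ) (X H : ℝ) : ℝ := (1 / X) * ∫ x in X..2 * X, (M f x H) ^ 2

/-- The distribution function of `M(x;H) / √(H/ζ(2))` over `x ∈ [X, 2X]`: the proportion of the
`x ∈ [X, 2X]` with `M(x;H) ≤ u √(H/ζ(2))`. -/
noncomputable def D (f : ℕ → ℝ) (X H u : ℝ) : ℝ :=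
  (1 / X) * volume.real {x : ℝ | X ≤ x ∧ x ≤ 2 * X ∧ M f x H ≤ u * Real.sqrt (H / (Real.pi ^ 2 / 6))}

/-- `e 0, e 1, e 2, ...` are independent random variables with values `1` and `-1`, each with
probability `1/2` (only the `e p` with `p` prime are used) -/
structure RandomSigns {Ω : Type*} [MeasurableSpace Ω] (P : Measure Ω) (e : ℕ → Ω → ℝ) : Prop where
  meas : ∀ p, Measurable (e p)
  indep : iIndepFun e P
  one : ∀ p, P {ω | e p ω = 1} = 1 / 2
  neg : ∀ p, P {ω | e p ω = -1} = 1 / 2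

/-- the random multiplicative function: `f(n)` is the product of the signs of the primes dividing
`n` if `n` is squarefree, and `0` otherwise -/
noncomputable def f {Ω : Type*} (e : ℕ → Ω → ℝ) (ω : Ω) (n : ℕ) : ℝ :=
  if Squarefree n then ∏ p ∈ n.primeFactors, e p ω else 0

theorem M_sq (g : ℕ → ℝ) (x H : ℝ) :
    (M g x H) ^ 2 = ‖H18.RM.MC (fun n => (g n : ℂ)) x H‖ ^ 2 := by
  have : H18.RM.MC (fun n => (g n : ℂ)) x H = ((M g x H : ℝ) : ℂ) := by
    unfold H18.RM.MC M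
    push_cast
    rfl
  rw [this, Complex.norm_real, Real.norm_eq_abs, sq_abs]

theorem V_eq (g : ℕ → ℝ) (X H : ℝ) :
    V g X H = 1 / X * H18.RM.IC (fun n => (g n : ℂ)) X (2 * X) H := by
  unfold V H18.RM.IC
  simp only [M_sq]

theorem result :
    (∃ (Ω : Type) (_ : MeasurableSpace Ω) (P : Measure Ω) (_ : IsProbabilityMeasure P)
      (e : ℕ → Ω → ℝ), RandomSigns P e) ∧
    ∀ (Ω : Type) [MeasurableSpace Ω] (P : Measure Ω) [IsProbabilityMeasure P] (e : ℕ → Ω → ℝ),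
      RandomSigns P e → ∀ᵐ ω ∂P,
        (∀ B : ℕ, ∃ X₀ : ℝ, ∀ X H : ℝ, X₀ ≤ X → 1 ≤ H → H ≤ X / Real.log X ^ (9 * B + 25) →
          |V (f e ω) X H / (H / (Real.pi ^ 2 / 6)) - 1| ≤ 1 / Real.log X ^ B) ∧
        (∀ H : ℝ → ℝ, Tendsto H atTop atTop → (∀ᶠ X in atTop, H X ≤ X / Real.log X ^ 26) →
          ∀ u : ℝ, Tendsto (fun X => D (f e ω) X (H X) u) atTop
            (nhds ((gaussianReal 0 1).real (Set.Iic u)))) := by
  constructor
  · obtain ⟨Ω, m, P, hP, e, he⟩ := H18.RM.exists_signs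
    exact ⟨Ω, m, P, hP, e, ⟨he.meas, he.indep, he.one, he.neg⟩⟩
  · intro Ω _ P _ e he
    have h : H18.RM.IsSigns P e := ⟨he.meas, he.indep, he.one, he.neg⟩
    have hV : ∀ᵐ ω ∂P, ∀ B : ℕ, ∀ᶠ X : ℝ in atTop, ∀ H : ℝ, 1 ≤ H →
        H ≤ X / Real.log X ^ (9 * B + 25) →
        |(1 / X * H18.RM.IC (fun n => (H18.RM.rmf e ω n : ℂ)) X (2 * X) H) /
          (H / (Real.pi ^ 2 / 6)) - 1| ≤ 1 / Real.log X ^ B :=
      ae_all_iff.2 fun B => H18.RM.law_ae h B
    filter_upwards [hV, Pool.Agent.H41.RG.gauss h] with ω hω hg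
    refine ⟨fun B => ?_, fun H hH hHX u => hg H hH hHX u⟩
    obtain ⟨X₀, hX₀⟩ := eventually_atTop.1 (hω B)
    refine ⟨X₀, fun X H hX h1 h2 => ?_⟩
    have := hX₀ X hX H h1 h2
    rw [V_eq]
    exact this

end Pool.Agent.Results.MP_0575cc_nt.GaussianLaw
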